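import Mathlib
import Pool.Agent.Q124.SigInt

/-!
# Edge counts of monotone non-homotopic drawings with at most `k` crossings per pair of edges

For every `n ≥ 1` and `k ≥ 0` an `n`-vertex multigraph with a drawing in the plane that is
monotone, non-homotopic and in which every two edges cross at most `k` times has at most
`4 ∑_{ℓ ≤ k} C(n, ℓ + 1)` edges.
-/

open Pool.Agent.Q124.SigInt

namespace Pool.Agent.Results.MP_6a261b_co.MonotoneEdges

/-- The unit interval. -/
abbrev I := unitInterval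

/-- A drawing in the plane of the multigraph with vertex set `V`, edge set `E` and end-vertices
`src e`, `tgt e` of the edge `e`. -/
structure Drawing (V E : Type*) where
  pos : V → ℝ × ℝ
  pos_injective : Function.Injective pos
  src : E → V
  tgt : E → V
  curve : E → C(I, ℝ × ℝ)
  curve_zero : ∀ e, curve e 0 = pos (src e)
  curve_one : ∀ e, curve e 1 = pos (tgt e)
  curve_ne : ∀ e t, 0 < t → t < 1 → ∀ v, curve e t ≠ pos v
  finite_crossings : ∀ e f, e ≠ f →
    {p : I × I | (0 < p.1 ∧ p.1 < 1) ∧ (0 < p.2 ∧ p.2 < 1) ∧ curve e p.1 = curve f p.2}.Finite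

namespace Drawing

variable {V E : Type*} (D : Drawing V E)

/-- The crossings of two edges. -/
def crossings (e f : E) : Set (I × I) :=
  {p | (0 < p.1 ∧ p.1 < 1) ∧ (0 < p.2 ∧ p.2 < 1) ∧ D.curve e p.1 = D.curve f p.2}

/-- The drawing is monotone: every edge meets every vertical line at most once. -/
def Monotone : Prop := ∀ e, Function.Injective fun t => (D.curve e t).1

/-- Two curves from `pos (src e)` to `pos (tgt e)` are homotopic, with fixed ends, in the plane
without the vertices different from the end-vertices of `e`. -/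
def CurveHomotopic (e : E) (α β : C(I, ℝ × ℝ)) : Prop :=
  ∃ H : C(I × I, ℝ × ℝ), (∀ t, H (0, t) = α t) ∧ (∀ t, H (1, t) = β t) ∧
    (∀ s, H (s, 0) = D.pos (D.src e)) ∧ (∀ s, H (s, 1) = D.pos (D.tgt e)) ∧
    ∀ s t v, v ≠ D.src e → v ≠ D.tgt e → H (s, t) ≠ D.pos v

/-- The curve with the opposite direction. -/
def rev (α : C(I, ℝ × ℝ)) : C(I, ℝ × ℝ) :=
  ⟨fun t => α (unitInterval.symm t), α.continuous.comp unitInterval.continuous_symm⟩

/-- Two parallel edges are homotopic. -/
def Homotopic (e f : E) : Prop :=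
  (D.src e = D.src f ∧ D.tgt e = D.tgt f ∧ D.CurveHomotopic e (D.curve e) (D.curve f)) ∨
  (D.src e = D.tgt f ∧ D.tgt e = D.src f ∧ D.CurveHomotopic e (D.curve e) (rev (D.curve f)))

/-- No two parallel edges are homotopic. -/
def NonHomotopic : Prop := ∀ e f, e ≠ f → ¬ D.Homotopic e f

/-- Every two edges cross at most `k` times. -/
def CrossAtMost (k : ℕ) : Prop := ∀ e f, e ≠ f → (D.crossings e f).ncard ≤ k

end Drawing

/-- The set of the numbers of edges of the `n`-vertex multigraphs with a monotone non-homotopic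
drawing in which every two edges cross at most `k` times. -/
def sizes (n k : ℕ) : Set ℕ :=
  {m | ∃ D : Drawing (Fin n) (Fin m), D.Monotone ∧ D.NonHomotopic ∧ D.CrossAtMost k}

/-- The maximum number of edges. -/
noncomputable def hMon (n k : ℕ) : ℕ := sSup (sizes n k)

/-! ### Height functions of monotone edges -/

/-- `L` and `R` are the left and the right end-vertex of `e`, and `h` is its height. -/
structure Data {V E : Type*} (D : Drawing V E) (e : E) (L R : V) (h : ℝ → ℝ) : Prop where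
  cont : Continuous h
  lt : (D.pos L).1 < (D.pos R).1
  ends : (L = D.src e ∧ R = D.tgt e) ∨ (L = D.tgt e ∧ R = D.src e)
  mem : ∀ t, (D.pos L).1 ≤ (D.curve e t).1 ∧ (D.curve e t).1 ≤ (D.pos R).1
  height : ∀ t, (D.curve e t).2 = h (D.curve e t).1
  onto : ∀ z, (D.pos L).1 < z → z < (D.pos R).1 → ∃ t, (0 < t ∧ t < 1) ∧ (D.curve e t).1 = z

theorem exists_data {V E : Type*} (D : Drawing V E) (hD : D.Monotone) (e : E) :
    ∃ L R h, Data D e L R h := by
  have hc : Continuous fun t => (D.curve e t).1 := continuous_fst.comp (D.curve e).continuous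
  have hemb := hc.isClosedEmbedding (hD e)
  obtain ⟨g, hg⟩ := ContinuousMap.exists_extension hemb
    (⟨fun t => (D.curve e t).2, continuous_snd.comp (D.curve e).continuous⟩ : C(I, ℝ))
  have hh : ∀ t, (D.curve e t).2 = g (D.curve e t).1 := by
    intro t
    have := DFunLike.congr_fun hg t
    exact this.symm
  have h0 : (D.curve e 0).1 = (D.pos (D.src e)).1 := by rw [D.curve_zero]
  have h1 : (D.curve e 1).1 = (D.pos (D.tgt e)).1 := by rw [D.curve_one]
  have h01 : (0 : I) < 1 := zero_lt_one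
  rcases hc.strictMono_of_inj (hD e) with hm | hm
  · refine ⟨D.src e, D.tgt e, g, g.continuous, ?_, Or.inl ⟨rfl, rfl⟩, ?_, hh, ?_⟩
    · rw [← h0, ← h1]
      exact hm h01
    · intro t
      rw [← h0, ← h1]
      exact ⟨hm.monotone bot_le, hm.monotone le_top⟩
    · intro z hz1 hz2
      rw [← h0] at hz1
      rw [← h1] at hz2
      obtain ⟨t, ht⟩ := mem_range_of_exists_le_of_exists_ge hc ⟨0, hz1.le⟩ ⟨1, hz2.le⟩
      have ht' : (D.curve e t).1 = z := ht
      refine ⟨t, ⟨?_, ?_⟩, ht⟩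
      · rw [← hm.lt_iff_lt, ht']
        exact hz1
      · rw [← hm.lt_iff_lt, ht']
        exact hz2
  · refine ⟨D.tgt e, D.src e, g, g.continuous, ?_, Or.inr ⟨rfl, rfl⟩, ?_, hh, ?_⟩
    · rw [← h0, ← h1]
      exact hm h01
    · intro t
      rw [← h0, ← h1]
      exact ⟨hm.antitone le_top, hm.antitone bot_le⟩
    · intro z hz1 hz2
      rw [← h1] at hz1
      rw [← h0] at hz2
      obtain ⟨t, ht⟩ := mem_range_of_exists_le_of_exists_ge hc ⟨1, hz1.le⟩ ⟨0, hz2.le⟩
      have ht' : (D.curve e t).1 = z := ht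
      refine ⟨t, ⟨?_, ?_⟩, ht⟩
      · rw [← hm.lt_iff_gt, ht']
        exact hz2
      · rw [← hm.lt_iff_gt, ht']
        exact hz1

theorem Data.height_left {V E : Type*} {D : Drawing V E} {e : E} {L R : V} {h : ℝ → ℝ}
    (hd : Data D e L R h) : h (D.pos L).1 = (D.pos L).2 := by
  rcases hd.ends with ⟨h1, -⟩ | ⟨h1, -⟩
  · rw [h1, ← D.curve_zero, hd.height]
  · rw [h1, ← D.curve_one, hd.height]

theorem Data.height_right {V E : Type*} {D : Drawing V E} {e : E} {L R : V} {h : ℝ → ℝ}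
    (hd : Data D e L R h) : h (D.pos R).1 = (D.pos R).2 := by
  rcases hd.ends with ⟨-, h1⟩ | ⟨-, h1⟩
  · rw [h1, ← D.curve_one, hd.height]
  · rw [h1, ← D.curve_zero, hd.height]

/-! ### The order of the vertices -/

section Rank

variable {V E : Type*} [Fintype V] (D : Drawing V E)

open Classical in
/-- The number of vertices before `v` in the lexicographic order. -/
noncomputable def rank (v : V) : ℕ :=
  (Finset.univ.filter fun u => toLex (D.pos u) < toLex (D.pos v)).card

theorem rank_lt_of_lt {u v : V} (h : toLex (D.pos u) < toLex (D.pos v)) :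
    rank D u < rank D v := by
  classical
  refine Finset.card_lt_card ?_
  rw [Finset.ssubset_iff_of_subset]
  · exact ⟨u, by simpa using h, by simp⟩
  · intro w hw
    simp only [Finset.mem_filter, Finset.mem_univ, true_and] at hw ⊢
    exact hw.trans h

theorem rank_lt_iff {u v : V} :
    rank D u < rank D v ↔ (D.pos u).1 < (D.pos v).1 ∨
      ((D.pos u).1 = (D.pos v).1 ∧ (D.pos u).2 < (D.pos v).2) := by
  rw [← Prod.Lex.toLex_lt_toLex]
  refine ⟨fun h => ?_, rank_lt_of_lt D⟩
  by_contra hno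
  rcases (not_lt.1 hno).lt_or_eq with h' | h'
  · exact absurd (rank_lt_of_lt D h') (by omega)
  · have h2 : D.pos v = D.pos u := toLex.injective h'
    have h3 := D.pos_injective h2
    rw [h3] at h
    exact lt_irrefl _ h

theorem rank_injective : Function.Injective (rank D) := by
  intro u v h
  by_contra hne
  have h1 : toLex (D.pos u) ≠ toLex (D.pos v) :=
    fun h' => hne (D.pos_injective (toLex.injective h'))
  rcases lt_or_gt_of_ne h1 with h2 | h2
  · exact absurd (rank_lt_of_lt D h2) (by omega)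
  · exact absurd (rank_lt_of_lt D h2) (by omega)

theorem rank_lt_card (v : V) : rank D v < Fintype.card V := by
  classical
  refine Finset.card_lt_univ_of_notMem (x := v) ?_
  simp

theorem rank_surj {x : ℕ} (hx : x < Fintype.card V) : ∃ v, rank D v = x := by
  let f : V → Fin (Fintype.card V) := fun v => ⟨rank D v, rank_lt_card D v⟩
  have hf : Function.Injective f := fun u v h => rank_injective D (Fin.mk.inj h)
  have hs : Function.Surjective f :=
    ((Fintype.bijective_iff_injective_and_card f).2 ⟨hf, by simp⟩).2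
  obtain ⟨v, hv⟩ := hs ⟨x, hx⟩
  exact ⟨v, Fin.mk.inj hv⟩

end Rank

/-! ### Codes of the edges -/

section Codes

variable {V E : Type*} [Fintype V] (D : Drawing V E)

open Classical in
/-- The code of an edge with ends `L`, `R` and height function `h`. -/
noncomputable def code (L R : V) (h : ℝ → ℝ) : Code :=
  (rank D L, rank D R, (Finset.univ.filter fun u => (rank D L < rank D u ∧ rank D u < rank D R) ∧
    (D.pos u).2 < h (D.pos u).1).image (rank D))

theorem mem_code {L R : V} {h : ℝ → ℝ} {u : V} : rank D u ∈ (code D L R h).2.2 ↔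
    (rank D L < rank D u ∧ rank D u < rank D R) ∧ (D.pos u).2 < h (D.pos u).1 := by
  classical
  simp only [code, Finset.mem_image, Finset.mem_filter, Finset.mem_univ, true_and]
  constructor
  · rintro ⟨w, hw, hwu⟩
    rw [rank_injective D hwu] at hw
    exact hw
  · exact fun h => ⟨u, h, rfl⟩

variable {D}

theorem Data.mem_Icc {e : E} {L R : V} {h : ℝ → ℝ} (_ : Data D e L R h) {u : V}
    (h1 : rank D L ≤ rank D u) (h2 : rank D u ≤ rank D R) :
    (D.pos L).1 ≤ (D.pos u).1 ∧ (D.pos u).1 ≤ (D.pos R).1 := by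
  constructor
  · rcases h1.lt_or_eq with h1 | h1
    · rcases (rank_lt_iff D).1 h1 with h | h
      · exact h.le
      · exact h.1.le
    · rw [rank_injective D h1]
  · rcases h2.lt_or_eq with h2 | h2
    · rcases (rank_lt_iff D).1 h2 with h | h
      · exact h.le
      · exact h.1.le
    · rw [rank_injective D h2]

theorem Data.ne_height {e : E} {L R : V} {h : ℝ → ℝ} (hd : Data D e L R h) {u : V}
    (h1 : rank D L < rank D u) (h2 : rank D u < rank D R) : h (D.pos u).1 ≠ (D.pos u).2 := by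
  rcases (rank_lt_iff D).1 h1 with h3 | ⟨h3, h4⟩
  · rcases (rank_lt_iff D).1 h2 with h5 | ⟨h5, h6⟩
    · obtain ⟨t, ⟨ht0, ht1⟩, ht⟩ := hd.onto _ h3 h5
      intro hu
      refine D.curve_ne e t ht0 ht1 u (Prod.ext ht ?_)
      rw [hd.height, ht, hu]
    · rw [h5, hd.height_right]
      exact h6.ne'
  · rw [← h3, hd.height_left]
    exact h4.ne

theorem Data.val_cases {e : E} {L R : V} {h : ℝ → ℝ} (hd : Data D e L R h) {u : V}
    (h1 : rank D L ≤ rank D u) (h2 : rank D u ≤ rank D R) :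
    (val (code D L R h) (rank D u) = 1 ∧ (D.pos u).2 < h (D.pos u).1) ∨
    (val (code D L R h) (rank D u) = 0 ∧ h (D.pos u).1 = (D.pos u).2) ∨
    (val (code D L R h) (rank D u) = -1 ∧ h (D.pos u).1 < (D.pos u).2) := by
  rcases h1.lt_or_eq with h3 | h3
  · rcases h2.lt_or_eq with h4 | h4
    · have hne := hd.ne_height h3 h4
      have hc : (code D L R h).1 < rank D u ∧ rank D u < (code D L R h).2.1 := ⟨h3, h4⟩
      unfold val
      rw [if_pos hc]
      rcases lt_or_gt_of_ne hne with h5 | h5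
      · right; right
        refine ⟨?_, h5⟩
        rw [if_neg]
        rw [mem_code]
        exact fun h6 => absurd h6.2 (not_lt.2 h5.le)
      · left
        refine ⟨?_, h5⟩
        rw [if_pos]
        rw [mem_code]
        exact ⟨⟨h3, h4⟩, h5⟩
    · right; left
      have h5 := rank_injective D h4
      refine ⟨?_, by rw [h5]; exact hd.height_right⟩
      unfold val
      rw [if_neg]
      rintro ⟨-, h6⟩
      exact absurd h6 (by show ¬ (rank D u < rank D R); omega)
  · right; left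
    have h5 := rank_injective D h3
    refine ⟨?_, by rw [← h5]; exact hd.height_left⟩
    unfold val
    rw [if_neg]
    rintro ⟨h6, -⟩
    exact absurd h6 (by show ¬ (rank D L < rank D u); omega)

/-- The relative position of two edges at a common vertex. -/
theorem above_vertex {e f : E} {L R L' R' : V} {h h' : ℝ → ℝ} (hd : Data D e L R h)
    (hd' : Data D f L' R' h') {s : Bool} {x : ℕ}
    (hx : Above (code D L R h) (code D L' R' h') s x) :
    ∃ u, rank D u = x ∧ ((D.pos L).1 ≤ (D.pos u).1 ∧ (D.pos u).1 ≤ (D.pos R).1) ∧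
      ((D.pos L').1 ≤ (D.pos u).1 ∧ (D.pos u).1 ≤ (D.pos R').1) ∧
      (s = true → h' (D.pos u).1 < h (D.pos u).1) ∧
      (s = false → h (D.pos u).1 < h' (D.pos u).1) := by
  obtain ⟨⟨c1, c2, c3, c4⟩, c5, c6⟩ := hx
  have hxc : x < Fintype.card V := lt_of_le_of_lt c3 (rank_lt_card D R)
  obtain ⟨u, rfl⟩ := rank_surj D hxc
  refine ⟨u, rfl, hd.mem_Icc c1 c3, hd'.mem_Icc c2 c4, fun hs => ?_, fun hs => ?_⟩
  · have h1 := c5 hs
    rcases hd.val_cases c1 c3 with ⟨v1, w1⟩ | ⟨v1, w1⟩ | ⟨v1, w1⟩ <;>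
    rcases hd'.val_cases c2 c4 with ⟨v2, w2⟩ | ⟨v2, w2⟩ | ⟨v2, w2⟩ <;>
    rw [v1, v2] at h1 <;> first | (exfalso; omega) | linarith
  · have h1 := c6 hs
    rcases hd.val_cases c1 c3 with ⟨v1, w1⟩ | ⟨v1, w1⟩ | ⟨v1, w1⟩ <;>
    rcases hd'.val_cases c2 c4 with ⟨v2, w2⟩ | ⟨v2, w2⟩ | ⟨v2, w2⟩ <;>
    rw [v1, v2] at h1 <;> first | (exfalso; omega) | linarith

/-- A zero of the difference of the heights between two places with different signs. -/
theorem exists_zero {h h' : ℝ → ℝ} (hc : Continuous h) (hc' : Continuous h') {a b : ℝ}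
    (hab : a ≤ b) {s : Bool} (ha1 : s = true → h' a < h a) (ha2 : s = false → h a < h' a)
    (hb1 : (!s) = true → h' b < h b) (hb2 : (!s) = false → h b < h' b) :
    ∃ z, a < z ∧ z < b ∧ h z = h' z := by
  have key : ∀ (h h' : ℝ → ℝ), Continuous h → Continuous h' → h' a < h a → h b < h' b →
      ∃ z, a < z ∧ z < b ∧ h z = h' z := by
    intro h h' hc hc' h1 h2
    have h3 : ContinuousOn (fun z => h' z - h z) (Set.Icc a b) := (hc'.sub hc).continuousOn
    have h4 : (0 : ℝ) ∈ Set.Icc (h' a - h a) (h' b - h b) := ⟨by linarith, by linarith⟩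
    obtain ⟨z, ⟨hz1, hz2⟩, hz⟩ := intermediate_value_Icc hab h3 h4
    have hz' : h' z - h z = 0 := hz
    refine ⟨z, lt_of_le_of_ne hz1 ?_, lt_of_le_of_ne hz2 ?_, by linarith⟩
    · rintro rfl
      linarith
    · rintro rfl
      linarith
  cases s with
  | true => exact key h h' hc hc' (ha1 rfl) (hb2 rfl)
  | false =>
    obtain ⟨z, z1, z2, z3⟩ := key h' h hc' hc (ha2 rfl) (hb1 rfl)
    exact ⟨z, z1, z2, z3.symm⟩

theorem alt_zeros {e f : E} {L R L' R' : V} {h h' : ℝ → ℝ} (hd : Data D e L R h)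
    (hd' : Data D f L' R' h') (m : ℕ) : ∀ (s : Bool) (a : ℕ),
    Alt (code D L R h) (code D L' R' h') m s a →
    ∃ u, a ≤ rank D u ∧ ((D.pos L).1 ≤ (D.pos u).1 ∧ (D.pos u).1 ≤ (D.pos R).1) ∧
      ((D.pos L').1 ≤ (D.pos u).1 ∧ (D.pos u).1 ≤ (D.pos R').1) ∧
      (s = true → h' (D.pos u).1 < h (D.pos u).1) ∧
      (s = false → h (D.pos u).1 < h' (D.pos u).1) ∧
      ∃ Z : Finset ℝ, Z.card = m ∧
        ∀ z ∈ Z, (D.pos u).1 < z ∧ z < (D.pos R).1 ∧ z < (D.pos R').1 ∧ h z = h' z := by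
  classical
  induction m with
  | zero =>
    rintro s a ⟨x, hx, hab⟩
    obtain ⟨u, rfl, h1, h2, h3, h4⟩ := above_vertex hd hd' hab
    exact ⟨u, hx, h1, h2, h3, h4, ∅, rfl, by simp⟩
  | succ m ih =>
    rintro s a ⟨x, hx, hab, halt⟩
    obtain ⟨u, rfl, h1, h2, h3, h4⟩ := above_vertex hd hd' hab
    obtain ⟨w, g0, g1, g2, g3, g4, Z, hZ1, hZ2⟩ := ih _ _ halt
    have huw : (D.pos u).1 ≤ (D.pos w).1 := by
      have : rank D u < rank D w := by omega
      rcases (rank_lt_iff D).1 this with h | h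
      · exact h.le
      · exact h.1.le
    obtain ⟨z, hz1, hz2, hz3⟩ := exists_zero hd.cont hd'.cont huw h3 h4 g3 g4
    refine ⟨u, hx, h1, h2, h3, h4, insert z Z, ?_, ?_⟩
    · rw [Finset.card_insert_of_notMem, hZ1]
      intro hzZ
      have := (hZ2 z hzZ).1
      linarith
    · intro y hy
      rcases Finset.mem_insert.1 hy with rfl | hy
      · exact ⟨hz1, hz2.trans_le g1.2, hz2.trans_le g2.2, hz3⟩
      · obtain ⟨y1, y2, y3, y4⟩ := hZ2 y hy
        exact ⟨by linarith, y2, y3, y4⟩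

/-- Many alternations give many crossings. -/
theorem not_alt {e f : E} (hef : e ≠ f) {L R L' R' : V} {h h' : ℝ → ℝ} (hd : Data D e L R h)
    (hd' : Data D f L' R' h') {k : ℕ} (hk : D.CrossAtMost k) (s : Bool) :
    ¬ Alt (code D L R h) (code D L' R' h') (k + 1) s 0 := by
  intro ha
  obtain ⟨u, -, h1, h2, -, -, Z, hZ1, hZ2⟩ := alt_zeros hd hd' _ _ _ ha
  have hfin : (D.crossings e f).Finite := D.finite_crossings e f hef
  have hsub : (Z : Set ℝ) ⊆ (fun p : I × I => (D.curve e p.1).1) '' D.crossings e f := by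
    intro z hz
    obtain ⟨z1, z2, z3, z4⟩ := hZ2 z hz
    obtain ⟨t, ht, ht'⟩ := hd.onto z (by linarith) z2
    obtain ⟨t', ht2, ht2'⟩ := hd'.onto z (by linarith) z3
    refine ⟨(t, t'), ⟨ht, ht2, Prod.ext (ht'.trans ht2'.symm) ?_⟩, ht'⟩
    show (D.curve e t).2 = (D.curve f t').2
    rw [hd.height, hd'.height, ht', ht2', z4]
  have h3 := Set.ncard_le_ncard hsub (hfin.image _)
  rw [Set.ncard_coe_finset] at h3
  have h4 : ((fun p : I × I => (D.curve e p.1).1) '' D.crossings e f).ncard ≤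
      (D.crossings e f).ncard := Set.ncard_image_le hfin
  have h5 := hk e f hef
  omega

omit [Fintype V] in
/-- Edges with the same code are homotopic: the homotopy. -/
theorem curveHomotopic {e : E} {α β : C(I, ℝ × ℝ)} {h h' : ℝ → ℝ} (hc : Continuous h)
    (hc' : Continuous h') {a b : ℝ}
    (hα : ∀ t, (a ≤ (α t).1 ∧ (α t).1 ≤ b) ∧ (α t).2 = h (α t).1)
    (hβ : ∀ t, (a ≤ (β t).1 ∧ (β t).1 ≤ b) ∧ (β t).2 = h' (β t).1)
    (hα0 : α 0 = D.pos (D.src e)) (hα1 : α 1 = D.pos (D.tgt e))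
    (hβ0 : β 0 = D.pos (D.src e)) (hβ1 : β 1 = D.pos (D.tgt e))
    (hav : ∀ v, v ≠ D.src e → v ≠ D.tgt e → a ≤ (D.pos v).1 → (D.pos v).1 ≤ b →
      ((D.pos v).2 < h (D.pos v).1 ∧ (D.pos v).2 < h' (D.pos v).1) ∨
      (h (D.pos v).1 < (D.pos v).2 ∧ h' (D.pos v).1 < (D.pos v).2)) :
    D.CurveHomotopic e α β := by
  have hs0 : ∀ s : I, (0 : ℝ) ≤ s := fun s => s.2.1
  have hs1 : ∀ s : I, (s : ℝ) ≤ 1 := fun s => s.2.2
  have hX : Continuous fun p : I × I => (1 - (p.1 : ℝ)) * (α p.2).1 + (p.1 : ℝ) * (β p.2).1 := by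
    fun_prop
  refine ⟨⟨fun p => ((1 - (p.1 : ℝ)) * (α p.2).1 + (p.1 : ℝ) * (β p.2).1,
    (1 - (p.1 : ℝ)) * h ((1 - (p.1 : ℝ)) * (α p.2).1 + (p.1 : ℝ) * (β p.2).1) +
      (p.1 : ℝ) * h' ((1 - (p.1 : ℝ)) * (α p.2).1 + (p.1 : ℝ) * (β p.2).1)), ?_⟩,
    ?_, ?_, ?_, ?_, ?_⟩
  · have h1 := hc.comp hX
    have h2 := hc'.comp hX
    have h3 : Continuous fun p : I × I => (p.1 : ℝ) := by fun_prop
    exact hX.prodMk (((continuous_const.sub h3).mul h1).add (h3.mul h2))
  · intro t
    refine Prod.ext ?_ ?_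
    · simp
    · simp [(hα t).2]
  · intro t
    refine Prod.ext ?_ ?_
    · simp
    · simp [(hβ t).2]
  · intro s
    have e1 : (1 - (s : ℝ)) * (α 0).1 + (s : ℝ) * (β 0).1 = (D.pos (D.src e)).1 := by
      rw [hα0, hβ0]
      ring
    have e2 : h (D.pos (D.src e)).1 = (D.pos (D.src e)).2 := by rw [← hα0, (hα 0).2]
    have e3 : h' (D.pos (D.src e)).1 = (D.pos (D.src e)).2 := by rw [← hβ0, (hβ 0).2]
    refine Prod.ext e1 ?_
    show (1 - (s : ℝ)) * h ((1 - (s : ℝ)) * (α 0).1 + (s : ℝ) * (β 0).1) +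
      (s : ℝ) * h' ((1 - (s : ℝ)) * (α 0).1 + (s : ℝ) * (β 0).1) = _
    rw [e1, e2, e3]
    ring
  · intro s
    have e1 : (1 - (s : ℝ)) * (α 1).1 + (s : ℝ) * (β 1).1 = (D.pos (D.tgt e)).1 := by
      rw [hα1, hβ1]
      ring
    have e2 : h (D.pos (D.tgt e)).1 = (D.pos (D.tgt e)).2 := by rw [← hα1, (hα 1).2]
    have e3 : h' (D.pos (D.tgt e)).1 = (D.pos (D.tgt e)).2 := by rw [← hβ1, (hβ 1).2]
    refine Prod.ext e1 ?_
    show (1 - (s : ℝ)) * h ((1 - (s : ℝ)) * (α 1).1 + (s : ℝ) * (β 1).1) +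
      (s : ℝ) * h' ((1 - (s : ℝ)) * (α 1).1 + (s : ℝ) * (β 1).1) = _
    rw [e1, e2, e3]
    ring
  · intro s t v hv1 hv2 heq
    have e1 : (1 - (s : ℝ)) * (α t).1 + (s : ℝ) * (β t).1 = (D.pos v).1 := congrArg Prod.fst heq
    have e2 : (1 - (s : ℝ)) * h ((1 - (s : ℝ)) * (α t).1 + (s : ℝ) * (β t).1) +
        (s : ℝ) * h' ((1 - (s : ℝ)) * (α t).1 + (s : ℝ) * (β t).1) = (D.pos v).2 :=
      congrArg Prod.snd heq
    rw [e1] at e2
    have h0 := hs0 s
    have h1 := hs1 s
    have h2 := hα t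
    have h3 := hβ t
    have ha : a ≤ (D.pos v).1 := by nlinarith [h2.1.1, h3.1.1]
    have hb : (D.pos v).1 ≤ b := by nlinarith [h2.1.2, h3.1.2]
    rcases hav v hv1 hv2 ha hb with ⟨h4, h5⟩ | ⟨h4, h5⟩
    · rcases h0.lt_or_eq with h6 | h6
      · nlinarith
      · rw [← h6] at e2
        linarith
    · rcases h0.lt_or_eq with h6 | h6
      · nlinarith
      · rw [← h6] at e2
        linarith

/-- Edges with the same code are homotopic. -/
theorem homotopic_of_code {e f : E} {L R L' R' : V} {h h' : ℝ → ℝ} (hd : Data D e L R h)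
    (hd' : Data D f L' R' h') (hcode : code D L R h = code D L' R' h') : D.Homotopic e f := by
  have hL : L' = L := (rank_injective D (congrArg Prod.fst hcode)).symm
  have hR : R' = R := (rank_injective D (congrArg (fun c => c.2.1) hcode)).symm
  subst hL
  subst hR
  have hav : ∀ v, v ≠ L' → v ≠ R' → (D.pos L').1 ≤ (D.pos v).1 → (D.pos v).1 ≤ (D.pos R').1 →
      ((D.pos v).2 < h (D.pos v).1 ∧ (D.pos v).2 < h' (D.pos v).1) ∨
      (h (D.pos v).1 < (D.pos v).2 ∧ h' (D.pos v).1 < (D.pos v).2) := by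
    intro v hv1 hv2 h1 h2
    by_cases h3 : rank D L' < rank D v
    · by_cases h4 : rank D v < rank D R'
      · have h5 := hd.ne_height h3 h4
        have h6 := hd'.ne_height h3 h4
        have h7 : (rank D v ∈ (code D L' R' h).2.2) ↔ (rank D v ∈ (code D L' R' h').2.2) := by
          rw [hcode]
        rw [mem_code, mem_code] at h7
        by_cases h8 : (D.pos v).2 < h (D.pos v).1
        · exact Or.inl ⟨h8, (h7.1 ⟨⟨h3, h4⟩, h8⟩).2⟩
        · right
          refine ⟨lt_of_le_of_ne (not_lt.1 h8) h5, lt_of_le_of_ne (not_lt.1 fun h9 => ?_) h6⟩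
          exact h8 (h7.2 ⟨⟨h3, h4⟩, h9⟩).2
      · have h5 : rank D R' < rank D v :=
          lt_of_le_of_ne (not_lt.1 h4) fun h => hv2 (rank_injective D h).symm
        rcases (rank_lt_iff D).1 h5 with h6 | ⟨h6, h7⟩
        · linarith
        · right
          rw [← h6, hd.height_right, hd'.height_right]
          exact ⟨h7, h7⟩
    · have h5 : rank D v < rank D L' :=
        lt_of_le_of_ne (not_lt.1 h3) fun h => hv1 (rank_injective D h)
      rcases (rank_lt_iff D).1 h5 with h6 | ⟨h6, h7⟩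
      · linarith
      · left
        rw [h6, hd.height_left, hd'.height_left]
        exact ⟨h7, h7⟩
  have hav' : ∀ v, v ≠ D.src e → v ≠ D.tgt e → (D.pos L').1 ≤ (D.pos v).1 →
      (D.pos v).1 ≤ (D.pos R').1 →
      ((D.pos v).2 < h (D.pos v).1 ∧ (D.pos v).2 < h' (D.pos v).1) ∨
      (h (D.pos v).1 < (D.pos v).2 ∧ h' (D.pos v).1 < (D.pos v).2) := by
    intro v hv1 hv2
    rcases hd.ends with ⟨e1, e2⟩ | ⟨e1, e2⟩
    · exact hav v (by rw [e1]; exact hv1) (by rw [e2]; exact hv2)
    · exact hav v (by rw [e1]; exact hv2) (by rw [e2]; exact hv1)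
  have hsame : D.src e = D.src f → D.tgt e = D.tgt f → D.Homotopic e f := by
    intro h1 h2
    refine Or.inl ⟨h1, h2, curveHomotopic hd.cont hd'.cont (fun t => ⟨hd.mem t, hd.height t⟩)
      (fun t => ⟨hd'.mem t, hd'.height t⟩) (D.curve_zero e) (D.curve_one e) ?_ ?_ hav'⟩
    · rw [D.curve_zero, h1]
    · rw [D.curve_one, h2]
  have hopp : D.src e = D.tgt f → D.tgt e = D.src f → D.Homotopic e f := by
    intro h1 h2
    refine Or.inr ⟨h1, h2, curveHomotopic hd.cont hd'.cont (fun t => ⟨hd.mem t, hd.height t⟩)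
      (fun t => ⟨hd'.mem _, hd'.height _⟩) (D.curve_zero e) (D.curve_one e) ?_ ?_ hav'⟩
    · show D.curve f (unitInterval.symm 0) = _
      rw [unitInterval.symm_zero, D.curve_one, h1]
    · show D.curve f (unitInterval.symm 1) = _
      rw [unitInterval.symm_one, D.curve_zero, h2]
  rcases hd.ends with ⟨e1, e2⟩ | ⟨e1, e2⟩ <;> rcases hd'.ends with ⟨e3, e4⟩ | ⟨e3, e4⟩
  · exact hsame (e1.symm.trans e3) (e2.symm.trans e4)
  · exact hopp (e1.symm.trans e3) (e2.symm.trans e4)
  · exact hopp (e2.symm.trans e4) (e1.symm.trans e3)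
  · exact hsame (e2.symm.trans e4) (e1.symm.trans e3)

end Codes

/-- The bound for a drawing. -/
theorem card_edges {m M k : ℕ} (D : Drawing (Fin (m + 2)) (Fin M)) (h1 : D.Monotone)
    (h2 : D.NonHomotopic) (h3 : D.CrossAtMost k) :
    M + m ≤ 4 * ∑ j ∈ Finset.range (k + 1), m.choose (j + 1) + 1 := by
  classical
  choose L R h hd using exists_data D h1
  have hinj : Function.Injective fun e => code D (L e) (R e) (h e) := by
    intro e f hef
    by_contra hne
    exact h2 e f hne (homotopic_of_code (hd e) (hd f) hef)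
  have hcard : (Finset.univ.image fun e => code D (L e) (R e) (h e)).card = M := by
    rw [Finset.card_image_of_injective _ hinj, Finset.card_univ, Fintype.card_fin]
  have := card_le m k 0 (Finset.univ.image fun e => code D (L e) (R e) (h e)) ?_ ?_
  · rw [hcard] at this
    exact this
  · intro c hc
    obtain ⟨e, -, rfl⟩ := Finset.mem_image.1 hc
    refine ⟨Nat.zero_le _, (rank_lt_iff D).2 (Or.inl (hd e).lt), ?_, ?_⟩
    · have := rank_lt_card D (R e)
      rw [Fintype.card_fin] at this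
      show rank D (R e) ≤ 0 + (m + 1)
      omega
    · intro x hx
      obtain ⟨u, hu, rfl⟩ := Finset.mem_image.1 hx
      exact (Finset.mem_filter.1 hu).2.1
  · intro c hc c' hc' s
    obtain ⟨e, -, rfl⟩ := Finset.mem_image.1 hc
    obtain ⟨f, -, rfl⟩ := Finset.mem_image.1 hc'
    by_cases hef : e = f
    · subst hef
      exact not_alt_self
    · exact not_alt hef (hd e) (hd f) h3 s

/-- With one vertex there are no edges. -/
theorem card_edges_one {M : ℕ} (D : Drawing (Fin 1) (Fin M)) (h1 : D.Monotone) : M = 0 := by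
  by_contra hM
  obtain ⟨L, R, h, hd⟩ := exists_data D h1 ⟨0, Nat.pos_of_ne_zero hM⟩
  have := hd.lt
  rw [Subsingleton.elim L R] at this
  exact lt_irrefl _ this

/-- **Answer to the question.**  With `c = 4` the bound `h_mon(n, k) ≤ c ∑_{ℓ ≤ k} C(n, ℓ + 1)`
holds for all `n ≥ 1` and `k ≥ 0`; more precisely
`h_mon(n, k) + n ≤ 4 ∑_{ℓ ≤ k} C(n - 2, ℓ + 1) + 3` for `n ≥ 2`. -/
theorem result :
    (∃ c : ℕ, ∀ n k : ℕ, 1 ≤ n →
      (∀ m ∈ sizes n k, m ≤ c * ∑ l ∈ Finset.range (k + 1), n.choose (l + 1)) ∧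
      hMon n k ≤ c * ∑ l ∈ Finset.range (k + 1), n.choose (l + 1)) ∧
    ∀ n k : ℕ, hMon (n + 2) k + (n + 2) ≤
      4 * ∑ l ∈ Finset.range (k + 1), n.choose (l + 1) + 3 := by
  have hb : ∀ n k m : ℕ, m ∈ sizes (n + 2) k →
      m + (n + 2) ≤ 4 * ∑ l ∈ Finset.range (k + 1), n.choose (l + 1) + 3 := by
    rintro n k m ⟨D, h1, h2, h3⟩
    have := card_edges D h1 h2 h3
    omega
  have hne : ∀ n k : ℕ, (sizes n k).Nonempty := by
    intro n k
    refine ⟨0, ⟨fun v => ((v : ℕ), 0), ?_, fun e => e.elim0, fun e => e.elim0,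
      fun e => e.elim0, fun e => e.elim0, fun e => e.elim0, fun e => e.elim0,
      fun e => e.elim0⟩, fun e => e.elim0, fun e => e.elim0, fun e => e.elim0⟩
    intro u v huv
    have := congrArg Prod.fst huv
    simpa [Fin.ext_iff] using this
  have hle : ∀ n k m : ℕ, 1 ≤ n → m ∈ sizes n k →
      m ≤ 4 * ∑ l ∈ Finset.range (k + 1), n.choose (l + 1) := by
    intro n k m hn hm
    rcases Nat.lt_or_ge n 2 with h | h
    · obtain rfl : n = 1 := by omega
      obtain ⟨D, h1, -, -⟩ := hm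
      rw [card_edges_one D h1]
      exact Nat.zero_le _
    · obtain ⟨n, rfl⟩ : ∃ n', n = n' + 2 := ⟨n - 2, by omega⟩
      have h1 := hb n k m hm
      have h2 : ∑ l ∈ Finset.range (k + 1), n.choose (l + 1) + 2 ≤
          ∑ l ∈ Finset.range (k + 1), (n + 2).choose (l + 1) := by
        rw [Finset.sum_range_succ' _ k, Finset.sum_range_succ' _ k]
        have h3 : ∑ l ∈ Finset.range k, n.choose (l + 1 + 1) ≤
            ∑ l ∈ Finset.range k, (n + 2).choose (l + 1 + 1) :=
          Finset.sum_le_sum fun l _ => Nat.choose_le_choose _ (by omega)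
        simp only [zero_add, Nat.choose_one_right]
        omega
      omega
  refine ⟨⟨4, fun n k hn => ⟨fun m hm => hle n k m hn hm, ?_⟩⟩, fun n k => ?_⟩
  · exact csSup_le (hne n k) fun m hm => hle n k m hn hm
  · have h1 : hMon (n + 2) k ∈ sizes (n + 2) k := by
      refine Nat.sSup_mem (hne _ _) ⟨4 * ∑ l ∈ Finset.range (k + 1), (n + 2).choose (l + 1), ?_⟩
      intro m hm
      exact hle _ _ _ (by omega) hm
    exact hb n k _ h1

end Pool.Agent.Results.MP_6a261b_co.MonotoneEdges
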